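import Pool.Agent.Helper93.TS.Stmts

/-!
# The cost of the form `W = v1 - tau v0`
-/

set_option autoImplicit false

namespace Pool.Agent.Helper93.TS

open Pool.Agent.Helper8.Kak

/-- the real variable estimate -/
theorem cW_real {N : ℕ} (t r b : Fin (N * N)) (hrt : r ≠ t) {X1 V1 X0 V0 τ : ℝ} {P Q : ℤ}
    (hV : |V0| ≤ 1)
    (hτ : |τ - (((b : ℕ) : ℝ) - ((t : ℕ) : ℝ)) / (((r : ℕ) : ℝ) - ((t : ℕ) : ℝ))|
      ≤ 2 * (1 / dst r t) ^ 2 * fd N)
    (h0 : |(X1 + ht t * V1) - (X0 + ht t * V0)| ≤ fd N)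
    (h1 : |(X1 + ht r * V1) - fd N * P| ≤ fd N)
    (h2 : |(X0 + ht b * V0) - fd N * Q| ≤ fd N) :
    |(V1 - τ * V0) - (fd N * P - fd N * Q) / (ht r - ht t)| ≤ 5 * (1 / dst r t) ^ 2 * fd N := by
  have hd0 : 0 < dst r t := dst_pos r t
  have hd1 : 1 ≤ 1 / dst r t := Helper89.KakGeo.one_le_inv_dst r t
  have hne : ht r - ht t ≠ 0 := sub_ne_zero.2 (ht_ne_of_ne hrt)
  have hd : dst r t = |ht r - ht t| := dst_eq_of_ne hrt
  have hM := Helper89.KakGeo.M_pos t
  have hδ : 0 < fd N := by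
    unfold fd
    exact one_div_pos.2 hM
  have eθ : (((b : ℕ) : ℝ) - ((t : ℕ) : ℝ)) / (((r : ℕ) : ℝ) - ((t : ℕ) : ℝ))
      = (ht b - ht t) / (ht r - ht t) := by
    unfold ht
    rw [← sub_div, ← sub_div, div_div_div_cancel_right₀ hM.ne']
  rw [eθ] at hτ
  set ρ := ht r - ht t with hρ
  set θ := (ht b - ht t) / ρ with hθ
  have key : (V1 - τ * V0) - (fd N * P - fd N * Q) / ρ
      = ((X1 + ht r * V1) - fd N * P) / ρ - ((X0 + ht b * V0) - fd N * Q) / ρ
        - ((X1 + ht t * V1) - (X0 + ht t * V0)) / ρ - (τ - θ) * V0 := by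
    rw [hθ]
    field_simp
    rw [hρ]
    ring
  have hρ0 : 0 < |ρ| := abs_pos.2 hne
  have f : ∀ x : ℝ, |x| ≤ fd N → |x / ρ| ≤ 1 / dst r t * fd N := by
    intro x hx
    rw [abs_div, hd, one_div, inv_mul_eq_div]
    exact div_le_div_of_nonneg_right hx hρ0.le
  have g1 := f _ h1
  have g2 := f _ h2
  have g0 := f _ h0
  have g3 : |(τ - θ) * V0| ≤ 2 * (1 / dst r t) ^ 2 * fd N := by
    rw [abs_mul]
    calc |τ - θ| * |V0| ≤ (2 * (1 / dst r t) ^ 2 * fd N) * 1 :=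
          mul_le_mul hτ hV (abs_nonneg _) (by positivity)
      _ = 2 * (1 / dst r t) ^ 2 * fd N := mul_one _
  have g4 : 1 / dst r t * fd N ≤ (1 / dst r t) ^ 2 * fd N := by
    apply mul_le_mul_of_nonneg_right _ hδ.le
    nlinarith
  rw [key]
  have t1 := abs_sub ((((X1 + ht r * V1) - fd N * P) / ρ - ((X0 + ht b * V0) - fd N * Q) / ρ)
        - ((X1 + ht t * V1) - (X0 + ht t * V0)) / ρ) ((τ - θ) * V0)
  have t2 := abs_sub (((X1 + ht r * V1) - fd N * P) / ρ - ((X0 + ht b * V0) - fd N * Q) / ρ)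
    (((X1 + ht t * V1) - (X0 + ht t * V0)) / ρ)
  have t3 := abs_sub (((X1 + ht r * V1) - fd N * P) / ρ) (((X0 + ht b * V0) - fd N * Q) / ρ)
  linarith

theorem cW_log13 : Real.log 13 ≤ 3 := by
  have h1 : Real.log 13 ≤ Real.log 16 := Real.log_le_log (by norm_num) (by norm_num)
  have h2 : Real.log 16 = 4 * Real.log 2 := by
    rw [show (16 : ℝ) = 2 ^ 4 by norm_num, Real.log_pow]; norm_num
  have := Real.log_two_lt_d9
  linarith

open VV in
open scoped Classical in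
theorem st_cW (h1 : ST_PRE) (h2 : ST_TAU) : ST_cW := by
  intro m N D
  have hP := h1 m N D
  have hκ := hP.κ0
  have hN1 : 1 ≤ N * N := Nat.mul_pos D.hN D.hN
  have hM : (0 : ℝ) < ((N * N : ℕ) : ℝ) := by exact_mod_cast hN1
  have hδ : 0 < fd N := by
    unfold fd
    exact one_div_pos.2 hM
  refine cost_le D.V _ _ W (by decide +kernel) _ fun r hr => ?_
  simp only [Finset.mem_insert, Finset.mem_singleton, forall_eq_or_imp, forall_eq, Dat.V_PR,
    Dat.V_Q, Dat.V_T0, Dat.V_R, Dat.V_B, Dat.V_c] at hr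
  have hk := Helper89.KakGeo.CE_known (m := m) hP.hp hδ r
    (fun y i => D.v (D.l (z1 y)) i - tau N (D.vc y) * D.v (D.l (z0 y)) i)
    (fun y i => if D.T (zR y) = D.T (z0 y) then 0 else
      (fd N * ((D.Pf (D.l (z1 y)) (D.T (zR y)) i : ℤ) : ℝ)
        - fd N * ((D.Pf (D.l (z0 y)) (D.T (zB y)) i : ℤ) : ℝ))
        / (ht (D.T (zR y)) - ht (D.T (z0 y))))
    (fun y => (1 / dst (D.T (zR y)) (D.T (z0 y))) ^ 2) (a := 5) (k := 13) (by norm_num)
    (by norm_num) (fun y => one_le_pow₀ (Helper89.KakGeo.one_le_inv_dst _ _)) ?_ ?_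
  · have e1 : Ex D.pz (fun y => Real.log ((1 / dst (D.T (zR y)) (D.T (z0 y))) ^ 2))
        = 2 * Ex D.pz (fun y => ld (D.T (zR y)) (D.T (z0 y))) := by
      rw [← Ex_smul]
      congr 1
      funext y
      rw [Real.log_pow]
      unfold ld
      norm_num
    rw [e1] at hk
    refine (le_trans hk ?_)
    unfold Dat.kc
    have hm : (0 : ℝ) ≤ (m : ℝ) := Nat.cast_nonneg _
    have h3 : 2 * Ex D.pz (fun y => ld (D.T (zR y)) (D.T (z0 y))) + Real.log 13
        ≤ 34 * (D.κ + 1) := by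
      have := hP.ldR0
      have := cW_log13
      linarith
    have h4 := mul_le_mul_of_nonneg_left h3 hm
    nlinarith
  · intro y y' p1 p2 p3
    obtain ⟨g1, g2, g3, g4, g5, g6⟩ := hr y y' p3
    refine ⟨?_, ?_⟩
    · funext i
      have a1 : D.Pf (D.l (z1 y)) (D.T (zR y)) i = D.Pf (D.l (z1 y')) (D.T (zR y')) i := by
        rw [g1]
      have a2 : D.Pf (D.l (z0 y)) (D.T (zB y)) i = D.Pf (D.l (z0 y')) (D.T (zB y')) i := by
        rw [g2]
      rw [a1, a2, g3, g4]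
    · simp only [g3, g4]
  · intro y hy i
    have L := hP.lk y hy
    have hT : Jc (D.T (zB y)) = Jc (D.T (z0 y)) := L.tB
    by_cases hRT : D.T (zR y) = D.T (z0 y)
    · have e0 : D.vc y = 0 := by
        unfold Dat.vc cpar
        rw [hRT, sub_self, mul_zero, zero_div, Int.floor_zero]
      simp only [if_pos hRT, e0]
      unfold tau
      rw [Int.cast_zero, div_zero, zero_mul, sub_zero, sub_zero, hRT,
        Helper89.KakGeo.inv_dst_self]
      have e1 : (5 : ℝ) * ((N * N : ℕ) : ℝ) ^ 2 * fd N = 5 * ((N * N : ℕ) : ℝ) := by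
        unfold fd
        field_simp
      rw [e1]
      have e2 : (1 : ℝ) ≤ ((N * N : ℕ) : ℝ) := by exact_mod_cast hN1
      have := D.hv (D.l (z1 y)) i
      linarith
    · simp only [if_neg hRT]
      refine cW_real (X1 := D.x (D.l (z1 y)) i) (X0 := D.x (D.l (z0 y)) i)
        (D.T (z0 y)) (D.T (zR y)) (D.T (zB y)) hRT (D.hv _ i)
        (h2 N (D.T (z0 y)) (D.T (zR y)) (D.T (zB y)) hT hRT) ?_ ?_ ?_
      · exact Helper89.KakGeo.cell_link hδ L.p0 i
      · exact Helper89.KakGeo.cell_err hδ (pnt D.x D.v (D.l (z1 y)) (D.T (zR y))) i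
      · exact Helper89.KakGeo.cell_err hδ (pnt D.x D.v (D.l (z0 y)) (D.T (zB y))) i

end Pool.Agent.Helper93.TS
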